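import Pool.Agent.H70.UN.Targets2

/-! # MP_c62aed_lc, unified theorem: row DECW (helper71) -/

set_option autoImplicit false

namespace Pool.Agent.H70.UN

open Matrix Finset H43.PS

namespace DecW

theorem scons {X : Type} [Fintype X] {N : ℕ} (f : (Fin (N + 1) → X) → ℝ) :
    ∑ b, f b = ∑ b0, ∑ b', f (Fin.cons b0 b') := by
  rw [← (Fin.consEquiv (fun _ : Fin (N + 1) => X)).sum_comp f, Fintype.sum_prod_type]
  rfl

theorem avcons {X : Type} [Fintype X] {N : ℕ} (f : (Fin (N + 1) → X) → ℝ) :
    av f = av (fun a' => av (fun a0 => f (Fin.cons a0 a'))) := by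
  unfold av
  rw [scons, Finset.sum_comm,
    ← Fintype.card_congr (Fin.consEquiv (fun _ : Fin (N + 1) => X)), Fintype.card_prod,
    ← Finset.mul_sum, ← mul_assoc]
  congr 1
  push_cast
  rw [mul_inv, mul_comm]

theorem av_mul {X : Type} [Fintype X] (c : ℝ) (f : X → ℝ) :
    av (fun x => c * f x) = c * av f := by
  unfold av
  rw [← Finset.mul_sum]
  ring

theorem av_sum {X I : Type} [Fintype X] [Fintype I] (f : I → X → ℝ) :
    av (fun x => ∑ i, f i x) = ∑ i, av (f i) := by
  unfold av
  rw [Finset.sum_comm, Finset.mul_sum]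

theorem av_le {X : Type} [Fintype X] {f g : X → ℝ} (h : ∀ x, f x ≤ g x) : av f ≤ av g := by
  unfold av
  exact mul_le_mul_of_nonneg_left (Finset.sum_le_sum fun x _ => h x) (by positivity)

theorem av_unique {X : Type} [Fintype X] [Unique X] (f : X → ℝ) : av f = f default := by
  unfold av
  rw [Fintype.sum_unique, Fintype.card_unique]
  simp

/-- splitting off the first letter -/
def eq0 (Θ ι : Type) (N : ℕ) :
    ((Fin (N + 1) → Option Θ) × ι) ≃ ((Fin N → Option Θ) × (Option Θ × ι)) where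
  toFun u := (Fin.tail u.1, (u.1 0, u.2))
  invFun v := (Fin.cons v.2.1 v.1, v.2.2)
  left_inv u := by simp
  right_inv v := by simp

theorem eq0_cons {Θ ι : Type} {N : ℕ} (u0 : Option Θ) (u' : Fin N → Option Θ) (x : ι) :
    eq0 Θ ι N (Fin.cons u0 u', x) = (u', (u0, x)) := by
  simp [eq0]

theorem czw_cons {Θ : Type} [DecidableEq Θ] {N : ℕ} (σ : Fin (N + 1) → ℝ) (z : Fin (N + 1) → Θ)
    (u0 : Option Θ) (u' : Fin N → Option Θ) :
    czw σ z (Fin.cons u0 u') = cc (σ 0) (z 0) u0 * czw (Fin.tail σ) (Fin.tail z) u' := by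
  unfold czw
  rw [Fin.prod_univ_succ]
  rfl

theorem ind_cons {Θ : Type} [Fintype Θ] [DecidableEq Θ] {N q : ℕ} (a0 : Fin q → Θ)
    (a' : Fin N → Fin q → Θ) (b : Fin (N + 1) → Fin q) (z : Fin (N + 1) → Θ) :
    ind (Fin.cons a0 a' : Fin (N + 1) → Fin q → Θ) b z =
      (if a0 (b 0) = z 0 then (Fintype.card Θ : ℝ) else 0) * ind a' (Fin.tail b) (Fin.tail z) := by
  unfold ind
  rw [Fin.prod_univ_succ]
  rfl

theorem sg_pos {Q p s : ℝ} (hQ : 0 < Q) (hp : 1 < p) (hs : 0 < s) : 0 < sg Q p s := by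
  unfold sg
  have : 0 < p - 1 := by linarith
  positivity

theorem sg_pow {Q p s : ℝ} (hQ : 0 < Q) (hp : 1 < p) (hs : 0 < s) :
    sg Q p s ^ (2 * p) = (p - 1) / Q * s := by
  unfold sg
  have h1 : 0 < p - 1 := by linarith
  have h2 : (0 : ℝ) ≤ (p - 1) / Q * s := by positivity
  rw [← Real.rpow_mul h2]
  have h3 : 1 / (2 * p) * (2 * p) = 1 := by
    have : 2 * p ≠ 0 := by linarith
    field_simp
  rw [h3, Real.rpow_one]

end DecW

open DecW

theorem decw_base (RIX : T_RIX) (NNG : T_NNG) (Θ : Type) [Fintype Θ] [DecidableEq Θ] (p : ℝ)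
    (q : ℕ) (π : (Fin 0 → Fin q) → ℝ) (hπ : ∑ b, π b ≤ 1) (s : (Fin 0 → Fin q) → Fin 0 → ℝ)
    (ι : Type) [Fintype ι] [DecidableEq ι] (P : (Fin 0 → Fin q → Θ) → Matrix ι ι ℝ)
    (hP : ∀ a, (P a).PosSemidef) :
    ∃ G : (Fin 0 → Fin q) → Matrix ((Fin 0 → Option Θ) × ι) ((Fin 0 → Option Θ) × ι) ℝ,
        (∀ b, (G b).PosSemidef) ∧
        (∀ b z x y, av (fun a => ind a b z * P a x y) =
          ∑ u, ∑ u', czw (fun k => sg (Fintype.card Θ) p (s b k)) z u *
            czw (fun k => sg (Fintype.card Θ) p (s b k)) z u' * G b (u, x) (u', y)) ∧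
        ∑ b, π b * tp p (G b) ≤ KU (Fintype.card Θ) p ^ 0 * av (fun a => tp p (P a)) := by
  refine ⟨fun _ => (P default).submatrix (Equiv.uniqueProd ι (Fin 0 → Option Θ))
    (Equiv.uniqueProd ι (Fin 0 → Option Θ)), fun _ => (hP _).submatrix _, ?_, ?_⟩
  · intro b z x y
    rw [av_unique, Fintype.sum_unique, Fintype.sum_unique]
    simp [ind, czw]
  · have h1 : ∀ b : Fin 0 → Fin q, tp p ((P default).submatrix
        (Equiv.uniqueProd ι (Fin 0 → Option Θ)) (Equiv.uniqueProd ι (Fin 0 → Option Θ))) =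
        tp p (P default) := fun b => RIX _ _ _ _ _
    simp only [RIX _ _ _ _ _, tp]
    rw [av_unique, ← Finset.sum_mul, pow_zero]
    have h2 : 0 ≤ tf (fun t => t ^ p) (P default) := (NNG ι (P default)).2 p (hP _)
    exact mul_le_mul_of_nonneg_right hπ h2

theorem pf_DECW (STPW : T_STPW) (RIX : T_RIX) (NNG : T_NNG) : T_DECW := by
  intro Θ _ _ p hp1 hp2 hQ q hq N
  have hQ' : (0 : ℝ) < Fintype.card Θ := by exact_mod_cast hQ
  have hqr : (0 : ℝ) < q := by exact_mod_cast hq
  have hq1 : (1 : ℝ) ≤ q := by exact_mod_cast hq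
  have hKU : 0 ≤ KU (Fintype.card Θ) p := by unfold KU; positivity
  induction N with
  | zero =>
    intro π _ hπ
    refine ⟨fun _ k => k.elim0, fun _ k => k.elim0, ?_, fun ι _ _ P hP =>
      decw_base RIX NNG Θ p q π hπ _ ι P hP⟩
    rw [Fintype.sum_unique]
    simp
  | succ N ih =>
    intro π hπ0 hπ1
    set π0 : Fin q → ℝ := fun b0 => ∑ b', π (Fin.cons b0 b') with hπ0d
    set π' : Fin q → (Fin N → Fin q) → ℝ := fun b0 b' => π (Fin.cons b0 b') / π0 b0 with hπ'd
    have h0 : ∀ b0, 0 ≤ π0 b0 := fun b0 => Finset.sum_nonneg fun b' _ => hπ0 _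
    have hsum : ∑ b0, π0 b0 ≤ 1 := by
      rw [← scons π]
      exact hπ1
    have hle1 : ∀ b0, π0 b0 ≤ 1 := fun b0 =>
      (Finset.single_le_sum (fun c _ => h0 c) (mem_univ b0)).trans hsum
    have hmul : ∀ b0 b', π (Fin.cons b0 b') = π0 b0 * π' b0 b' := by
      intro b0 b'
      by_cases h : π0 b0 = 0
      · rw [h, zero_mul]
        exact (Finset.sum_eq_zero_iff_of_nonneg (fun b' _ => hπ0 _)).1 h b' (mem_univ b')
      · simp only [hπ'd]
        field_simp
    have hs1 : ∀ b0, ∑ b', π' b0 b' ≤ 1 := by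
      intro b0
      simp only [hπ'd]
      rw [← Finset.sum_div]
      exact div_self_le_one _
    choose s' hs' using fun b0 => ih (π' b0) (fun b' => div_nonneg (hπ0 _) (h0 b0)) (hs1 b0)
    set mx : Fin q → ℝ := fun b0 => max (π0 b0) (1 / q) with hmx
    have hmx0 : ∀ b0, 0 < mx b0 := fun b0 => lt_of_lt_of_le (by positivity) (le_max_right _ _)
    have hmx1 : ∀ b0, mx b0 ≤ 1 := fun b0 => max_le (hle1 b0) (by
      rw [div_le_one hqr]
      exact hq1)
    have hs0 : ∀ b0, 1 ≤ (mx b0)⁻¹ ∧ (mx b0)⁻¹ ≤ q := by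
      intro b0
      refine ⟨(one_le_inv₀ (hmx0 b0)).2 (hmx1 b0), ?_⟩
      refine inv_le_of_inv_le₀ hqr ?_
      rw [← one_div]
      exact le_max_right _ _
    refine ⟨fun b => Fin.cons (mx (b 0))⁻¹ (s' (b 0) (Fin.tail b)), ?_, ?_, ?_⟩
    · intro b k
      refine Fin.cases ?_ (fun k => ?_) k
      · simpa using hs0 (b 0)
      · simpa using (hs' (b 0)).1 (Fin.tail b) k
    · rw [scons]
      have h1 : ∀ b0 (b' : Fin N → Fin q), ∏ k, ((Fin.cons
          (mx ((Fin.cons b0 b' : Fin (N + 1) → Fin q) 0))⁻¹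
          (s' ((Fin.cons b0 b' : Fin (N + 1) → Fin q) 0)
            (Fin.tail (Fin.cons b0 b' : Fin (N + 1) → Fin q))) : Fin (N + 1) → ℝ) k)⁻¹ =
          mx b0 * ∏ k, (s' b0 b' k)⁻¹ := by
        intro b0 b'
        rw [Fin.prod_univ_succ]
        simp
      simp only [h1, ← Finset.mul_sum]
      calc ∑ b0, mx b0 * ∑ b', ∏ k, (s' b0 b' k)⁻¹
          ≤ ∑ b0, (π0 b0 + 1 / q) * 2 ^ N := by
            refine Finset.sum_le_sum fun b0 _ => ?_
            refine mul_le_mul (max_le ?_ ?_) (hs' b0).2.1 ?_ ?_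
            · have : (0 : ℝ) < 1 / q := by positivity
              linarith
            · linarith [h0 b0]
            · refine Finset.sum_nonneg fun b' _ => Finset.prod_nonneg fun k _ => ?_
              exact inv_nonneg.2 (zero_le_one.trans ((hs' b0).1 b' k).1)
            · have : (0 : ℝ) < 1 / q := by positivity
              linarith [h0 b0]
        _ = (∑ b0, π0 b0 + 1) * 2 ^ N := by
            rw [← Finset.sum_mul, Finset.sum_add_distrib]
            congr 2
            rw [Finset.sum_const, Finset.card_univ, Fintype.card_fin, nsmul_eq_mul]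
            field_simp
        _ ≤ 2 * 2 ^ N := by
            refine mul_le_mul_of_nonneg_right ?_ (by positivity)
            linarith
        _ = 2 ^ (N + 1) := by ring
    · intro ι _ _ P hP
      have hσ0 : ∀ b0, 0 < sg (Fintype.card Θ) p (mx b0)⁻¹ := fun b0 =>
        sg_pos hQ' hp1 (inv_pos.2 (hmx0 b0))
      have hσ1 : ∀ b0, π0 b0 * sg (Fintype.card Θ) p (mx b0)⁻¹ ^ (2 * p) ≤
          (p - 1) / Fintype.card Θ := by
        intro b0
        rw [sg_pow hQ' hp1 (inv_pos.2 (hmx0 b0))]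
        have h1 : π0 b0 * (mx b0)⁻¹ ≤ 1 := by
          rw [← div_eq_mul_inv, div_le_one (hmx0 b0)]
          exact le_max_left _ _
        have h2 : 0 ≤ (p - 1) / Fintype.card Θ := div_nonneg (by linarith) hQ'.le
        calc π0 b0 * ((p - 1) / Fintype.card Θ * (mx b0)⁻¹)
            = (p - 1) / Fintype.card Θ * (π0 b0 * (mx b0)⁻¹) := by ring
          _ ≤ (p - 1) / Fintype.card Θ * 1 := mul_le_mul_of_nonneg_left h1 h2
          _ = _ := mul_one _
      choose G0 hG0 using fun a' : Fin N → Fin q → Θ =>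
        STPW ι Θ p hp1 hp2 hQ q (fun a0 => P (Fin.cons a0 a')) (fun a0 => hP _) π0
          (fun b0 => sg (Fintype.card Θ) p (mx b0)⁻¹) h0 hsum hσ0 hσ1
      choose G' hG' using fun b0 => (hs' b0).2.2 (Option Θ × ι) (fun a' => G0 a' b0)
        (fun a' => (hG0 a').1 b0)
      refine ⟨fun b => (G' (b 0) (Fin.tail b)).submatrix (eq0 Θ ι N) (eq0 Θ ι N),
        fun b => ((hG' (b 0)).1 (Fin.tail b)).submatrix _, ?_, ?_⟩
      · intro b z x y
        have hL : av (fun a => ind a b z * P a x y) =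
            ∑ u0, ∑ v0, (cc (sg (Fintype.card Θ) p (mx (b 0))⁻¹) (z 0) u0 *
              cc (sg (Fintype.card Θ) p (mx (b 0))⁻¹) (z 0) v0) *
              av (fun a' => ind a' (Fin.tail b) (Fin.tail z) *
                G0 a' (b 0) (u0, x) (v0, y)) := by
          rw [avcons]
          have h1 : ∀ a' : Fin N → Fin q → Θ,
              av (fun a0 : Fin q → Θ => ind (Fin.cons a0 a' : Fin (N + 1) → Fin q → Θ) b z *
                P (Fin.cons a0 a') x y) =
              ∑ u0, ∑ v0, (cc (sg (Fintype.card Θ) p (mx (b 0))⁻¹) (z 0) u0 *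
                cc (sg (Fintype.card Θ) p (mx (b 0))⁻¹) (z 0) v0) *
                (ind a' (Fin.tail b) (Fin.tail z) * G0 a' (b 0) (u0, x) (v0, y)) := by
            intro a'
            have h2 : ∀ a0 : Fin q → Θ, ind (Fin.cons a0 a' : Fin (N + 1) → Fin q → Θ) b z *
                P (Fin.cons a0 a') x y = ind a' (Fin.tail b) (Fin.tail z) *
                ((if a0 (b 0) = z 0 then (Fintype.card Θ : ℝ) else 0) *
                  P (Fin.cons a0 a') x y) := by
              intro a0
              rw [ind_cons]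
              ring
            simp only [h2]
            rw [av_mul, (hG0 a').2.1 (b 0) (z 0) x y, Finset.mul_sum]
            refine Finset.sum_congr rfl fun u0 _ => ?_
            rw [Finset.mul_sum]
            refine Finset.sum_congr rfl fun v0 _ => ?_
            ring
          simp only [h1]
          rw [av_sum]
          refine Finset.sum_congr rfl fun u0 _ => ?_
          rw [av_sum]
          refine Finset.sum_congr rfl fun v0 _ => ?_
          rw [av_mul]
        rw [hL]
        have hR : ∀ u0 v0, av (fun a' => ind a' (Fin.tail b) (Fin.tail z) *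
            G0 a' (b 0) (u0, x) (v0, y)) = _ := fun u0 v0 =>
          (hG' (b 0)).2.1 (Fin.tail b) (Fin.tail z) (u0, x) (v0, y)
        simp only [hR]
        rw [scons]
        have hE : ∀ u0 (u' : Fin N → Option Θ), ∑ v : Fin (N + 1) → Option Θ,
            czw (fun k => sg (Fintype.card Θ) p ((Fin.cons (mx (b 0))⁻¹
              (s' (b 0) (Fin.tail b)) : Fin (N + 1) → ℝ) k)) z (Fin.cons u0 u') *
            czw (fun k => sg (Fintype.card Θ) p ((Fin.cons (mx (b 0))⁻¹
              (s' (b 0) (Fin.tail b)) : Fin (N + 1) → ℝ) k)) z v *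
            (G' (b 0) (Fin.tail b)).submatrix (eq0 Θ ι N) (eq0 Θ ι N) (Fin.cons u0 u', x)
              (v, y) =
            ∑ v0, ∑ v' : Fin N → Option Θ, (cc (sg (Fintype.card Θ) p (mx (b 0))⁻¹) (z 0) u0 *
              cc (sg (Fintype.card Θ) p (mx (b 0))⁻¹) (z 0) v0) *
              (czw (fun k => sg (Fintype.card Θ) p (s' (b 0) (Fin.tail b) k)) (Fin.tail z) u' *
                czw (fun k => sg (Fintype.card Θ) p (s' (b 0) (Fin.tail b) k)) (Fin.tail z) v' *
                G' (b 0) (Fin.tail b) (u', (u0, x)) (v', (v0, y))) := by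
          intro u0 u'
          rw [scons]
          refine Finset.sum_congr rfl fun v0 _ => Finset.sum_congr rfl fun v' _ => ?_
          rw [Matrix.submatrix_apply, eq0_cons, eq0_cons, czw_cons, czw_cons]
          have e1 : (Fin.tail (fun k => sg (Fintype.card Θ) p ((Fin.cons (mx (b 0))⁻¹
              (s' (b 0) (Fin.tail b)) : Fin (N + 1) → ℝ) k)) : Fin N → ℝ) =
              fun k => sg (Fintype.card Θ) p (s' (b 0) (Fin.tail b) k) := rfl
          rw [e1, Fin.cons_zero]
          ring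
        simp only [hE]
        refine Finset.sum_congr rfl fun u0 _ => ?_
        rw [Finset.sum_comm]
        refine Finset.sum_congr rfl fun v0 _ => ?_
        rw [Finset.mul_sum]
        refine Finset.sum_congr rfl fun u' _ => ?_
        rw [Finset.mul_sum]
      · have htp : ∀ b : Fin (N + 1) → Fin q, tp p ((G' (b 0) (Fin.tail b)).submatrix
            (eq0 Θ ι N) (eq0 Θ ι N)) = tp p (G' (b 0) (Fin.tail b)) := fun b => RIX _ _ _ _ _
        simp only [htp]
        rw [scons]
        calc ∑ b0, ∑ b' : Fin N → Fin q, π (Fin.cons b0 b') *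
              tp p (G' ((Fin.cons b0 b' : Fin (N + 1) → Fin q) 0)
                (Fin.tail (Fin.cons b0 b' : Fin (N + 1) → Fin q)))
            = ∑ b0, π0 b0 * ∑ b', π' b0 b' * tp p (G' b0 b') := by
              refine Finset.sum_congr rfl fun b0 _ => ?_
              rw [Finset.mul_sum]
              refine Finset.sum_congr rfl fun b' _ => ?_
              rw [hmul, Fin.cons_zero, Fin.tail_cons, mul_assoc]
          _ ≤ ∑ b0, π0 b0 * (KU (Fintype.card Θ) p ^ N * av (fun a' => tp p (G0 a' b0))) :=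
              Finset.sum_le_sum fun b0 _ => mul_le_mul_of_nonneg_left (hG' b0).2.2 (h0 b0)
          _ = KU (Fintype.card Θ) p ^ N * av (fun a' => ∑ b0, π0 b0 * tp p (G0 a' b0)) := by
              rw [av_sum, Finset.mul_sum]
              refine Finset.sum_congr rfl fun b0 _ => ?_
              rw [av_mul]
              ring
          _ ≤ KU (Fintype.card Θ) p ^ N * av (fun a' => KU (Fintype.card Θ) p *
                av (fun a0 => tp p (P (Fin.cons a0 a')))) :=
              mul_le_mul_of_nonneg_left (av_le fun a' => (hG0 a').2.2) (pow_nonneg hKU N)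
          _ = KU (Fintype.card Θ) p ^ (N + 1) * av (fun a => tp p (P a)) := by
              rw [av_mul, avcons (fun a => tp p (P a))]
              ring

end Pool.Agent.H70.UN
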