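import Pool.Agent.H70.UN.Targets2
import Pool.Agent.H96.KX.CORE

/-! # MP_c62aed_lc, unified theorem: row LASB (helper71) -/

set_option autoImplicit false

namespace Pool.Agent.H70.UN

open Matrix Finset H43.PS
open Pool.Agent.H1.LP (Loc supp ip)
open Pool.Agent.H96.KX (PDz psz fac jun)

/-- the partial assignment which is `v` on `W` -/
def tauW {p B : ℕ} (W : Finset (Fin B)) (v : Fin B → ZMod p) : Fin B → Option (ZMod p) :=
  fun i => if i ∈ W then some (v i) else none

theorem psz_tauW {p B : ℕ} (W : Finset (Fin B)) (v : Fin B → ZMod p) :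
    psz (tauW W v) = W.card := by
  unfold psz tauW
  congr 1
  ext i
  simp only [mem_filter, mem_univ, true_and]
  by_cases hi : i ∈ W
  · simp [hi]
  · simp [hi]

theorem agree_of_jun {p B : ℕ} [Fact p.Prime] (W : Finset (Fin B)) (v z : Fin B → ZMod p)
    (h : jun (tauW W v) z ≠ 0) : ∀ i ∈ W, z i = v i := by
  intro i hi
  have h1 := Finset.prod_ne_zero_iff.1 h i (mem_univ i)
  by_contra hne
  apply h1
  simp only [tauW, if_pos hi, fac]
  rw [if_neg hne]

theorem sum_jun_tauW {p B : ℕ} [Fact p.Prime] (W : Finset (Fin B)) (z : Fin B → ZMod p) :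
    ∑ v : Fin B → ZMod p, jun (tauW W v) z = (p : ℝ) ^ B := by
  have h1 : ∀ v : Fin B → ZMod p, jun (tauW W v) z =
      ∏ i, fac (if i ∈ W then some (v i) else none) (z i) := fun v => rfl
  simp only [h1]
  have h2 := Finset.prod_univ_sum (fun _ : Fin B => (univ : Finset (ZMod p)))
    (fun i t => fac (if i ∈ W then some t else none) (z i))
  rw [Fintype.piFinset_univ] at h2
  rw [← h2]
  have h3 : ∀ i ∈ (univ : Finset (Fin B)),
      ∑ t : ZMod p, fac (if i ∈ W then some t else none) (z i) = (p : ℝ) := by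
    intro i _
    by_cases hi : i ∈ W
    · simp only [if_pos hi, fac]
      rw [Finset.sum_ite_eq]
      simp [ZMod.card]
    · simp only [if_neg hi, fac]
      simp [ZMod.card]
  rw [Finset.prod_congr rfl h3]
  simp

theorem junta_zero (PDP : Pool.Agent.H96.KX.S_PDP) {p B d : ℕ} [Fact p.Prime] (S : Loc p B d)
    (l : Fin B → ZMod p) (hl : l ∈ S.La) (W : Finset (Fin B)) (hlW : supp l ⊆ W)
    (hW : W.card ≤ d) (g : (Fin B → ZMod p) → ℝ)
    (hg : ∀ z z' : Fin B → ZMod p, (∀ i ∈ W, z i = z' i) → g z = g z')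
    (hv : ∀ z, g z ≠ 0 → ip l z ≠ S.ga l) : ∑ z, g z * PDz S z = 0 := by
  have hp : (0 : ℝ) < (p : ℝ) ^ B := by
    have : (0 : ℝ) < p := by exact_mod_cast (Fact.out : p.Prime).pos
    positivity
  have h1 : ∀ v : Fin B → ZMod p, g v * ∑ z, jun (tauW W v) z * PDz S z = 0 := by
    intro v
    by_cases h0 : g v = 0
    · rw [h0, zero_mul]
    · rw [(PDP p B d S (tauW W v) (by rw [psz_tauW]; exact hW)).2 l hl, mul_zero]
      intro z hz
      have h2 := agree_of_jun W v z hz
      refine hv z ?_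
      rw [hg z v h2]
      exact h0
  have h2 : ∑ v : Fin B → ZMod p, g v * ∑ z, jun (tauW W v) z * PDz S z = 0 :=
    Finset.sum_eq_zero fun v _ => h1 v
  have h3 : ∑ v : Fin B → ZMod p, g v * ∑ z, jun (tauW W v) z * PDz S z =
      (p : ℝ) ^ B * ∑ z, g z * PDz S z := by
    simp only [Finset.mul_sum]
    rw [Finset.sum_comm]
    refine Finset.sum_congr rfl fun z _ => ?_
    rw [← sum_jun_tauW W z, Finset.sum_mul]
    refine Finset.sum_congr rfl fun v _ => ?_
    by_cases h0 : jun (tauW W v) z = 0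
    · rw [h0]
      ring
    · rw [hg z v (agree_of_jun W v z h0)]
      ring
  rw [h3] at h2
  exact (mul_eq_zero.1 h2).resolve_left hp.ne'

theorem pf_LASB (PDP : Pool.Agent.H96.KX.S_PDP) : T_LASB := by
  intro p B d _ S l hl d' hd UU hU F hF
  have h1 : ∀ z : Fin B → ZMod p, (if ip l z ≠ S.ga l then PDz S z else 0) *
      (∑ T ∈ UU, F T z) ^ 2 = ∑ T ∈ UU, ∑ T' ∈ UU,
        ((if ip l z ≠ S.ga l then (1 : ℝ) else 0) * F T z * F T' z) * PDz S z := by
    intro z
    rw [sq, Finset.sum_mul_sum, Finset.mul_sum]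
    refine Finset.sum_congr rfl fun T _ => ?_
    rw [Finset.mul_sum]
    refine Finset.sum_congr rfl fun T' _ => ?_
    split_ifs
    · ring
    · ring
  simp only [h1]
  rw [Finset.sum_comm]
  refine Finset.sum_eq_zero fun T hT => ?_
  rw [Finset.sum_comm]
  refine Finset.sum_eq_zero fun T' hT' => ?_
  refine junta_zero PDP S l hl ((T ∪ T') ∪ supp l) Finset.subset_union_right
    ((Finset.card_union_le _ _).trans ((Nat.add_le_add_right (hU T hT T' hT') _).trans hd))
    (fun z => (if ip l z ≠ S.ga l then (1 : ℝ) else 0) * F T z * F T' z) ?_ ?_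
  · intro z z' hz
    have e1 : ip l z = ip l z' := Pool.Agent.H96.KX.ip_cong l _ Finset.subset_union_right z z' hz
    have e2 : F T z = F T z' := hF T hT z z' fun i hi => hz i (by simp [hi])
    have e3 : F T' z = F T' z' := hF T' hT' z z' fun i hi => hz i (by simp [hi])
    simp only [e1, e2, e3]
  · intro z hz h0
    apply hz
    simp only [h0, ne_eq, not_true_eq_false, if_false, zero_mul]

end Pool.Agent.H70.UN
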